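import Pool.Agent.V7H41.CC.Spec

set_option autoImplicit false

/-!
# Systems of pairs give partitions
-/

open Finset

namespace Pool.Agent.V7H4.CC

open Pool.Agent.V7H41.CC

lemma sep_disjoint {α : Type*} [DecidableEq α] {p : α → ℕ} {A B : Finset α} (h : Sep p A B) :
    Disjoint A B := by
  rw [Finset.disjoint_left]
  intro x hA hB
  rcases h with h | h
  · exact lt_irrefl _ (h x hA x hB)
  · exact lt_irrefl _ (h x hA x hB)

theorem t_PAIRS : S_PAIRS := by
  intro n m p q X
  have key : {Q | IsSys p q X m Q} ⊆
      (fun P : Finpartition (univ : Finset (Fin n)) => P.parts.filter (fun A => A.card = 2)) ''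
        {P : Finpartition (univ : Finset (Fin n)) |
          SepP p P ∧ SepP q P ∧ P.parts.card = n - m} := by
    rintro Q ⟨hQm, hQ2, hQs⟩
    have hdis : ∀ A ∈ Q, ∀ B ∈ Q, A ≠ B → Disjoint A B :=
      fun A hA B hB hAB => sep_disjoint (hQs A hA B hB hAB).1
    have hcard : (Q.biUnion id).card = 2 * m := by
      have h1 : (Q.biUnion id).card = ∑ A ∈ Q, (id A).card := Finset.card_biUnion hdis
      rw [h1, Finset.sum_congr rfl (fun A hA => show (id A).card = 2 from (hQ2 A hA).2)]
      simp [hQm, mul_comm]
    have hle : 2 * m ≤ n := by
      rw [← hcard]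
      exact (card_le_univ _).trans (by simp)
    set U : Finset (Finset (Fin n)) :=
      ((univ : Finset (Fin n)) \ Q.biUnion id).image (fun x => ({x} : Finset (Fin n))) with hU
    have hUc : U.card = n - 2 * m := by
      rw [hU, card_image_of_injective _ (Finset.singleton_injective), card_sdiff_of_subset (subset_univ _),
        hcard]
      simp
    have hU1 : ∀ A ∈ U, A.card = 1 := by
      intro A hA
      rw [hU, mem_image] at hA
      obtain ⟨x, -, rfl⟩ := hA
      simp
    have hQU : Disjoint Q U := by
      rw [Finset.disjoint_left]
      intro A hA hA'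
      have h1 := (hQ2 A hA).2
      have h2 := hU1 A hA'
      omega
    let P : Finpartition (univ : Finset (Fin n)) :=
      Finpartition.ofExistsUnique (Q ∪ U) (fun _ _ => subset_univ _)
        (by
          intro a _
          by_cases ha : a ∈ Q.biUnion id
          · obtain ⟨A, hA, haA⟩ := mem_biUnion.1 ha
            refine ⟨A, ⟨mem_union_left _ hA, haA⟩, ?_⟩
            rintro B ⟨hB, haB⟩
            rcases mem_union.1 hB with hB | hB
            · by_contra hne
              exact (Finset.disjoint_left.1 (hdis B hB A hA hne)) haB haA
            · rw [hU, mem_image] at hB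
              obtain ⟨x, hx, rfl⟩ := hB
              rw [mem_singleton] at haB
              subst haB
              exact absurd ha (mem_sdiff.1 hx).2
          · refine ⟨{a}, ⟨mem_union_right _ ?_, mem_singleton_self a⟩, ?_⟩
            · rw [hU, mem_image]
              exact ⟨a, mem_sdiff.2 ⟨mem_univ _, ha⟩, rfl⟩
            · rintro B ⟨hB, haB⟩
              rcases mem_union.1 hB with hB | hB
              · exact absurd (mem_biUnion.2 ⟨B, hB, haB⟩) ha
              · rw [hU, mem_image] at hB
                obtain ⟨x, hx, rfl⟩ := hB
                rw [mem_singleton] at haB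
                rw [haB])
        (by
          intro h
          rcases mem_union.1 h with h | h
          · have := (hQ2 _ h).2
            simp at this
          · have := hU1 _ h
            simp at this)
    have hP : P.parts = Q ∪ U := rfl
    have hsep : ∀ r : Fin n → ℕ, (∀ A ∈ Q, ∀ B ∈ Q, A ≠ B → Sep r A B) → SepP r P := by
      intro r hr A hA B hB hAB hA2 hB2
      have hA' : A ∈ Q := by
        rcases mem_union.1 (hP ▸ hA) with h | h
        · exact h
        · have := hU1 _ h
          omega
      have hB' : B ∈ Q := by
        rcases mem_union.1 (hP ▸ hB) with h | h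
        · exact h
        · have := hU1 _ h
          omega
      exact hr A hA' B hB' hAB
    refine ⟨P, ⟨hsep p fun A hA B hB h => (hQs A hA B hB h).1,
      hsep q fun A hA B hB h => (hQs A hA B hB h).2, ?_⟩, ?_⟩
    · rw [hP, card_union_of_disjoint hQU, hQm, hUc]
      omega
    · show P.parts.filter (fun A => A.card = 2) = Q
      rw [hP]
      ext A
      rw [mem_filter, mem_union]
      constructor
      · rintro ⟨h | h, h2⟩
        · exact h
        · have := hU1 _ h
          omega
      · intro h
        exact ⟨Or.inl h, (hQ2 A h).2⟩
  exact (Set.ncard_le_ncard key (Set.toFinite _)).trans (Set.ncard_image_le (Set.toFinite _))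

end Pool.Agent.V7H4.CC
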